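import Pool.Agent.Q73.Sh.Trap

/-!
# A critical point in the interior of the shadow
-/

set_option autoImplicit false

open Polynomial

namespace Pool.Agent.Results.MP_d2a4c3_an.InteriorCriticalPoint

/-- The polynomial `Q_{n,m}`, the `m`-th derivative of `P ^ n`. -/
noncomputable def Q (P : ℂ[X]) (n m : ℕ) : ℂ[X] := derivative^[m] (P ^ n)

/-- The shadow of `P`: the closure of the set of all the zeros of the polynomials `Q_{n,m}`,
`n ≥ 1`, `0 ≤ m ≤ n d`, `d` the degree of `P`. -/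
def shadow (P : ℂ[X]) : Set ℂ :=
  closure {z | ∃ n m : ℕ, 1 ≤ n ∧ m ≤ n * P.natDegree ∧ (Q P n m).eval z = 0}

/-- The roots of `P` are in convex position: they are distinct, and no root lies in the convex hull
of the others. -/
def ConvexPosition (P : ℂ[X]) : Prop :=
  P.roots.Nodup ∧ ∀ a ∈ P.roots, a ∉ convexHull ℝ {b : ℂ | b ∈ P.roots ∧ b ≠ a}

/-- The roots of `P` are the vertices of a regular polygon: they are the points
`c + w exp (2 π i k / d)`, `d` the degree of `P`. -/
def RegularPolygon (P : ℂ[X]) : Prop :=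
  ∃ c w : ℂ, {z : ℂ | z ∈ P.roots} =
    {z | ∃ k : ℕ, z = c + w * Complex.exp (2 * Real.pi * Complex.I * k / P.natDegree)}

theorem roots_eq : Q73.Shadow.T.roots =
    {(⟨-1, Q73.Shadow.sq⟩ : ℂ), ⟨-1, -Q73.Shadow.sq⟩, ⟨2, 1⟩, ⟨2, -1⟩} := by
  have h : Q73.Shadow.T = C 2 * (Multiset.map (fun a : ℂ => X - C a)
      {(⟨-1, Q73.Shadow.sq⟩ : ℂ), ⟨-1, -Q73.Shadow.sq⟩, ⟨2, 1⟩, ⟨2, -1⟩}).prod := by
    apply Polynomial.funext
    intro z
    rw [Q73.Shadow.T_factor]
    simp [eval_mul]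
    ring
  rw [h, roots_C_mul _ (by norm_num), roots_multiset_prod_X_sub_C]

theorem mem_roots_iff (z : ℂ) : z ∈ Q73.Shadow.T.roots ↔
    z = ⟨-1, Q73.Shadow.sq⟩ ∨ z = ⟨-1, -Q73.Shadow.sq⟩ ∨ z = ⟨2, 1⟩ ∨ z = ⟨2, -1⟩ := by
  rw [roots_eq]
  simp

theorem sep {S : Set ℂ} {a : ℂ} (α β : ℝ)
    (h : ∀ b ∈ S, α * b.re + β * b.im < α * a.re + β * a.im) : a ∉ convexHull ℝ S := by
  intro ha
  have hlin : IsLinearMap ℝ (fun z : ℂ => α * z.re + β * z.im) :=
    ⟨fun z w => by simp only [Complex.add_re, Complex.add_im]; ring,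
      fun c z => by simp only [Complex.real_smul, Complex.mul_re, Complex.mul_im,
        Complex.ofReal_re, Complex.ofReal_im, smul_eq_mul]; ring⟩
  have hc := convex_halfSpace_lt hlin (α * a.re + β * a.im)
  have h3 : a ∈ {w : ℂ | α * w.re + β * w.im < α * a.re + β * a.im} :=
    convexHull_min (fun b hb => h b hb) hc ha
  exact lt_irrefl (α * a.re + β * a.im) h3

/-- **Theorem (negative answer to Q1).**  The polynomial `P = 2 z⁴ - 4 z³ - z² + 25` has its roots
`-1 ± i √(3/2)`, `2 ± i` in convex position; they are not the vertices of a regular polygon; and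
the critical point `0` of `P` is an interior point of the shadow of `P`. -/
theorem result : ∃ P : ℂ[X], P = C 2 * X ^ 4 - C 4 * X ^ 3 - X ^ 2 + C 25 ∧ P.natDegree = 4 ∧
    ConvexPosition P ∧ ¬ RegularPolygon P ∧
    (derivative P).eval 0 = 0 ∧ (0 : ℂ) ∈ interior (shadow P) := by
  have hs := Q73.Shadow.sq_pos
  have hs2 := Q73.Shadow.sq_sq
  refine ⟨Q73.Shadow.T, rfl, Q73.Shadow.T_natDegree, ⟨?_, ?_⟩, ?_, Q73.Shadow.T_crit,
    Q73.Shadow.zero_mem_interior⟩
  · rw [roots_eq]
    simp only [Multiset.insert_eq_cons, Multiset.nodup_cons, Multiset.mem_cons,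
      Multiset.mem_singleton, Complex.mk.injEq, Multiset.nodup_singleton]
    norm_num
    intro h
    linarith
  · intro a ha
    rw [mem_roots_iff] at ha
    rcases ha with rfl | rfl | rfl | rfl
    · refine sep (-1) 2 ?_
      rintro b ⟨hb, hne⟩
      rw [mem_roots_iff] at hb
      rcases hb with rfl | rfl | rfl | rfl
      · exact absurd rfl hne
      · simp only; nlinarith
      · simp only; nlinarith
      · simp only; nlinarith
    · refine sep (-1) (-2) ?_
      rintro b ⟨hb, hne⟩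
      rw [mem_roots_iff] at hb
      rcases hb with rfl | rfl | rfl | rfl
      · simp only; nlinarith
      · exact absurd rfl hne
      · simp only; nlinarith
      · simp only; nlinarith
    · refine sep 1 1 ?_
      rintro b ⟨hb, hne⟩
      rw [mem_roots_iff] at hb
      rcases hb with rfl | rfl | rfl | rfl
      · simp only; nlinarith
      · simp only; nlinarith
      · exact absurd rfl hne
      · simp only; nlinarith
    · refine sep 1 (-1) ?_
      rintro b ⟨hb, hne⟩
      rw [mem_roots_iff] at hb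
      rcases hb with rfl | rfl | rfl | rfl
      · simp only; nlinarith
      · simp only; nlinarith
      · simp only; nlinarith
      · exact absurd rfl hne
  · rintro ⟨c, w, h⟩
    -- the set of the roots is symmetric about `c`
    have hsym : ∀ z ∈ Q73.Shadow.T.roots, 2 * c - z ∈ Q73.Shadow.T.roots := by
      intro z hz
      have h1 : z ∈ {z : ℂ | z ∈ Q73.Shadow.T.roots} := hz
      rw [h] at h1
      obtain ⟨k, hk⟩ := h1
      have h2 : 2 * c - z ∈ {z | ∃ k : ℕ, z = c + w *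
          Complex.exp (2 * Real.pi * Complex.I * k / Q73.Shadow.T.natDegree)} := by
        refine ⟨k + 2, ?_⟩
        rw [hk, Q73.Shadow.T_natDegree]
        have e : (2 * Real.pi * Complex.I * ((k + 2 : ℕ) : ℂ) / ((4 : ℕ) : ℂ)) =
            2 * Real.pi * Complex.I * (k : ℂ) / ((4 : ℕ) : ℂ) + Real.pi * Complex.I := by
          push_cast
          ring
        rw [e, Complex.exp_add, Complex.exp_pi_mul_I]
        ring
      rw [← h] at h2
      exact h2
    have h1 := hsym ⟨-1, Q73.Shadow.sq⟩ ((mem_roots_iff _).2 (Or.inl rfl))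
    have h2 := hsym ⟨-1, -Q73.Shadow.sq⟩ ((mem_roots_iff _).2 (Or.inr (Or.inl rfl)))
    have h3 := hsym ⟨2, 1⟩ ((mem_roots_iff _).2 (Or.inr (Or.inr (Or.inl rfl))))
    rw [mem_roots_iff] at h1 h2 h3
    simp only [Complex.ext_iff, Complex.sub_re, Complex.sub_im, Complex.mul_re, Complex.mul_im,
      Complex.re_ofNat, Complex.im_ofNat, zero_mul, sub_zero, add_zero] at h1 h2 h3
    rcases h1 with ⟨a1, b1⟩ | ⟨a1, b1⟩ | ⟨a1, b1⟩ | ⟨a1, b1⟩ <;>
    rcases h2 with ⟨a2, b2⟩ | ⟨a2, b2⟩ | ⟨a2, b2⟩ | ⟨a2, b2⟩ <;>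
    rcases h3 with ⟨a3, b3⟩ | ⟨a3, b3⟩ | ⟨a3, b3⟩ | ⟨a3, b3⟩ <;>
    first | linarith | nlinarith

end Pool.Agent.Results.MP_d2a4c3_an.InteriorCriticalPoint
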